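import Pool.Agent.Lib.MP_df705a_gt.Fib.Main

open scoped Manifold ContDiff
open Bundle Module Pool.Agent.Lib.MP_df705a_gt Pool.Agent.Lib.MP_df705a_gt.Twist
open Pool.Agent.Lib.MP_df705a_gt.Perm Pool.Agent.Lib.MP_df705a_gt.Fib

/-- Let `π : (M, g₀) → (B, g_B)` be a Riemannian submersion of closed manifolds, `B` connected,
whose fibres are minimal and have nonpositive scalar curvature, and let `g = a² g₀^hor + b² g₀^vert`
where `a` and `b` are arbitrary positive smooth functions on `M`. If `g` has positive scalar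
curvature, then `g_B` is conformal to a metric of positive scalar curvature. -/
theorem Pool.Agent.Results.MP_df705a_gt.BiconformalFibres.result
    -- `B` is a closed connected manifold of positive dimension, modelled on the space `E₁`
    {E₁ : Type*} [NormedAddCommGroup E₁] [NormedSpace ℝ E₁] [FiniteDimensional ℝ E₁]
    {B : Type*} [TopologicalSpace B] [ChartedSpace E₁ B] [IsManifold 𝓘(ℝ, E₁) ∞ B]
    [CompactSpace B] [T2Space B] [ConnectedSpace B] (hB : 0 < finrank ℝ E₁)
    -- `M` is a closed manifold, modelled on the space `E`, with `dim M = dim B + k`, `k > 0`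
    {E : Type*} [NormedAddCommGroup E] [NormedSpace ℝ E] [FiniteDimensional ℝ E]
    {M : Type*} [TopologicalSpace M] [ChartedSpace E M] [IsManifold 𝓘(ℝ, E) ∞ M]
    [CompactSpace M] [T2Space M] [Nonempty M] {k : ℕ} (hk : 0 < k)
    (hM : finrank ℝ E = finrank ℝ E₁ + k)
    -- `g₀` and `g` are Riemannian metrics on `M` and `gB` is a Riemannian metric on `B`
    (g₀ g : ContMDiffRiemannianMetric 𝓘(ℝ, E) ∞ E (fun x : M => TangentSpace 𝓘(ℝ, E) x))
    (gB : ContMDiffRiemannianMetric 𝓘(ℝ, E₁) ∞ E₁ (fun x : B => TangentSpace 𝓘(ℝ, E₁) x))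
    -- `pr : (M, g₀) → (B, gB)` is a Riemannian submersion, with minimal fibres, whose scalar
    -- curvature (for the metric induced by `g₀`) is nonpositive
    (pr : M → B) (hpr : RiemSub g₀ gB pr) (hmin : MinimalFibres g₀ gB pr)
    (hs : NonposFibres k g₀ pr)
    -- `g = a² g₀` on the orthogonal complements of the fibres, `g = b² g₀` on the fibres
    (a b : M → ℝ) (ha : ContMDiff 𝓘(ℝ, E) 𝓘(ℝ, ℝ) ∞ a) (ha0 : ∀ p, 0 < a p)
    (hb : ContMDiff 𝓘(ℝ, E) 𝓘(ℝ, ℝ) ∞ b) (hb0 : ∀ p, 0 < b p)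
    (hg : Biconformal E₁ g₀ g pr a b) :
    PosScal g → ConfPSC gB :=
  fun hpos => conf_of_biconf hk hM hB g₀ g gB hpr hmin hs ha ha0 hb hb0 hg hpos
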