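import Pool.Agent.Lib.MP_df705a_gt.Coll.W.Tower

open Pool.Agent.Lib.MP_df705a_gt.Coll

/-- Let `M = M_r → M_(r-1) → ... → M_1 → M_0 = B` be a tower of smooth fibre bundles of closed
connected manifolds of positive dimension, such that none of the fibres `F_1, ..., F_r` carries a
metric of positive scalar curvature; nothing is assumed about the total spaces `M_i`. Then for every
metric `g` on `M` one of the following holds.

(i) Iterated collapse of `g` leads to metrics which are not conformal to metrics of positive scalar
curvature: there is `e₁ > 0` such that for `0 < ε₁ < e₁` there is `e₂ > 0` such that for
`0 < ε₂ < e₂` ... such that for `0 < ε_r < e_r` the metric obtained from `g` by multiplying it by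
`ε₁²` on the fibres of `M → M_0`, then the result by `ε₂²` on the fibres of `M → M_1`, ..., and
finally by `ε_r²` on the fibres of `M → M_(r-1)` (each time leaving the orthogonal complements of
the fibres orthogonal to them and the metric there unchanged), exists and is not conformal to a
metric of positive scalar curvature.

(ii) The metric `g` is conformal to a metric for which `M_r → M_(r-1)` is a Riemannian submersion
with Ricci flat fibres onto `M_(r-1)` with a metric which is again of this type, and so on down to
`B`, with a metric which is conformal to a metric of positive scalar curvature.

If `B` carries no metric of positive scalar curvature, then (i) holds for every `g`. For `r = 1` the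
theorem is about one bundle `F → M → B`: either the metrics which are equal to `g` on the orthogonal
complements of the fibres and to `ε² g` on the fibres are not conformal to metrics of positive
scalar curvature for small `ε`, or `g` is conformal to the metric of a Riemannian submersion
`M → B` with Ricci flat fibres and with a base metric conformal to one of positive scalar
curvature. -/
theorem Pool.Agent.Results.MP_df705a_gt.Collapse.result
    -- `B` and `M` are closed connected manifolds, the bottom and the top of the tower
    {B M : ClosedMfd} (T : Tower B M)
    -- an arbitrary metric on `M`
    (g : Met M.E M.M) :
    NoPSC T.maps g ∨ T.Rigid g :=
  tower_collapse T g
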