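import Pool.Agent.Lib.MP_df705a_gt.Wide.B9

open scoped Manifold ContDiff
open Bundle Module Pool.Agent.Lib.MP_df705a_gt.Twist Pool.Agent.Lib.MP_df705a_gt.Perm
open Pool.Agent.Lib.MP_df705a_gt.Pin Pool.Agent.Lib.MP_df705a_gt.Kat
open Pool.Agent.Lib.MP_df705a_gt.Wide
open Pool.Agent.Lib.MP_df705a_gt.Coll (Met)

/-- **Wide bands over closed aspherical manifolds contain essential regions of small scalar curvature
or very negative Ricci curvature.** For every dimension `N ≥ 2` and every `Λ` there is a constant
`C > 0` such that the following holds. Let `M` be a closed `n`-manifold, let `(p, t) : X → M × ℝᵐ` be a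
diffeomorphism, `N = n + m`, let `Q : ℝᴺ → X` be a smooth covering (if `m ≥ 1` then by Stallings it
exists for every closed aspherical manifold `M`), and let `g` be an arbitrary Riemannian metric on `X`,
complete or not. Let `f : X → ℝᵐ` be a `C¹` map such that `f - t` is bounded, let `ρ > 0` be a `C¹`
function, and suppose that `|dρ| ≤ 1` and `ρ |df| ≤ 1` on the band `P = {‖f‖ < 1}`. Let `w` be a smooth
function with `1 ≤ w ≤ Λ`, let `u > 0` be a smooth function and `γ ≥ 0`. Put
`τ = ρ⁻² - Δw / (N w)` and call the point `b` bad if it is not true that `τ(b) ≥ 0` and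
`Ric ≥ -τ(b) g` at `b`, or if `scal(b) u(b) - γ Δu(b) ≤ C (1 + γ) ρ(b)⁻² u(b)`. Let `A` be an open set
in `X` such that the image of `π₁(A, x)` in `π₁(X, x)` has infinite index for all `x ∈ A`. Then there
are a bad point `b ∈ P` and a point `x ∈ P`, `x ∉ A`, with `d(x, b) < ρ(x)`.

So the bad points of the band are not in a part of `X` which is small for the fundamental group: every
open set which contains all points `x` of the band with `d(x, b) < ρ(x)` for a bad point `b` of the
band has a component whose fundamental group has an image of finite index in `π₁(X) = π₁(M)`.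

The case `m = 1`, `w = u = 1`, `γ = 0`, `ρ` constant: if `Ric ≥ -ρ⁻² g` on a band `M × (-1, 1)` over a
closed aspherical manifold `M`, whose ends have distance more than `2 ρ`, then `scal ≤ C ρ⁻²` somewhere
in it. So there is no complete metric with `Ric ≥ -κ g` and `scal > C κ` on `M × ℝ`, and in fact the
end of a complete manifold which is diffeomorphic to `M × [0, ∞)` (such as the end of `M' × ℝ²` for a
closed aspherical manifold `M'`, with `M = M' × S¹`) has bad points outside every compact set,
for every function `ρ > 0` with `|dρ| ≤ 1`, in particular for functions of linear growth: if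
`Ric ≥ -κ r⁻² g` on the end then `scal ≤ C (1 + κ) r⁻²` at some points tending to infinity, where `r` is
the distance from a point. The metrics `dr² + r²ᵃ g₀` with a flat metric `g₀` and
`0 < a < 2 / (n + 1)` show that the order of decay is sharp. The case of the metric `g₀ + dt²` on
`X = M × ℝ` is that of a metric `g₀` on the closed aspherical manifold `M` (`f = t / R` with a large
`R`); it gives bad points of the metric `g₀`, so if `scal > 0` for `g₀`, the metric has points with
very negative Ricci curvature.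

With a general `u > 0` the second condition for a good point is the positivity of the operator
`-γ Δ + scal - C (1 + γ) ρ⁻²` (`γ = 4 (N - 1) / (N - 2)`: conformal metrics); with a general `w` the
lower bound of the Ricci curvature is only needed in the sense of Kato classes: if `V ≥ 0` and
`Δw ≤ N (ρ⁻² - V) w`, then `Ric ≥ -V g` suffices.

The definitions: `ProductCover` is the diffeomorphism `(p, t)` together with the covering `Q`, `Met E X`
is the type of the smooth Riemannian metrics on `X`, `GradLe g ρ f x` says that `|dρ| ≤ 1` and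
`ρ |df| ≤ 1` at `x`, `BadN g C γ ρ w u b` says that `b` is bad, `mball g x r` is the open ball for the
Riemannian distance (Mathlib: infimum of the lengths of `C¹` paths), `piImage A x` is the image of
`π₁(A, x)` in `π₁(X, x)`. -/
theorem Pool.Agent.Results.MP_df705a_gt.WideBands.result.{v, w} (N : ℕ) (hN : 2 ≤ N) (Λ : ℝ) :
    ∃ C : ℝ, 0 < C ∧
    -- `M` is a closed manifold, `X` is diffeomorphic to `M × ℝᵐ` and covered by `ℝᴺ`
    ∀ (n m : ℕ) (M : Type v) [TopologicalSpace M] [ChartedSpace (EuclideanSpace ℝ (Fin n)) M]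
      [IsManifold 𝓘(ℝ, EuclideanSpace ℝ (Fin n)) ∞ M] [CompactSpace M]
      (X : Type w) [TopologicalSpace X] [ChartedSpace (EuclideanSpace ℝ (Fin N)) X]
      [IsManifold 𝓘(ℝ, EuclideanSpace ℝ (Fin N)) ∞ X]
      (p : X → M) (t : X → EuclideanSpace ℝ (Fin m)) (Q : EuclideanSpace ℝ (Fin N) → X),
      ProductCover (EuclideanSpace ℝ (Fin n)) p t Q →
    -- `g` is any smooth metric on `X`, `f` gives the band, `ρ` is the scale
    ∀ (g : Met (EuclideanSpace ℝ (Fin N)) X) (f : X → EuclideanSpace ℝ (Fin m)) (ρ : X → ℝ),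
      ContMDiff 𝓘(ℝ, EuclideanSpace ℝ (Fin N)) 𝓘(ℝ, EuclideanSpace ℝ (Fin m)) 1 f →
      (∃ c : ℝ, ∀ x, ‖f x - t x‖ ≤ c) →
      ContMDiff 𝓘(ℝ, EuclideanSpace ℝ (Fin N)) 𝓘(ℝ, ℝ) 1 ρ → (∀ x, 0 < ρ x) →
      (∀ x, ‖f x‖ < 1 → GradLe g ρ f x) →
    -- the function `w`
    ∀ w : X → ℝ, ContMDiff 𝓘(ℝ, EuclideanSpace ℝ (Fin N)) 𝓘(ℝ, ℝ) ∞ w →
      (∀ x, 1 ≤ w x) → (∀ x, w x ≤ Λ) →
    -- the number `γ` and the function `u`
    ∀ (γ : ℝ) (u : X → ℝ), 0 ≤ γ →
      ContMDiff 𝓘(ℝ, EuclideanSpace ℝ (Fin N)) 𝓘(ℝ, ℝ) ∞ u → (∀ x, 0 < u x) →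
    -- the open set `A`
    ∀ A : Set X, IsOpen A → (∀ x : A, ¬ (piImage A x).FiniteIndex) →
    -- it does not contain the neighbourhood of the set of the bad points `b` at the scale `ρ`
    ∃ b x : X, ‖f b‖ < 1 ∧ ‖f x‖ < 1 ∧ BadN g C γ ρ w u b ∧ b ∈ mball g x (ρ x) ∧ x ∉ A :=
  wide_essential N hN Λ
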